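import Pool.Agent.Helper12.E4.Tourn

/-! # Where an apex can lie -/

namespace E4

theorem apex_F {D t μ : ℕ} {x : VV D t μ} {a : Fin (2 * t)} {w : Wd D} {p p' : Fin μ}
    (h1 : TT D t μ (Sum.inl (a, w, p')) x) (h2 : TT D t μ x (Sum.inl (a, w, p))) :
    ∃ p'' : Fin μ, x = Sum.inl (a, w, p'') := by
  rcases x with ⟨a'', w'', p''⟩ | q | z
  · rcases h1 with h1 | ⟨e1, h1⟩
    · exfalso
      rcases h2 with h2 | ⟨e2, h2⟩
      · exact par_asymm h1 h2
      · simp only at h1 e2
        rw [e2] at h1; exact par_irrefl _ h1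
    · simp only at e1 h1
      subst e1
      rcases h2 with h2 | ⟨e2, h2⟩
      · exact absurd h2 (par_irrefl _)
      · simp only at h2
        rcases h1 with h1 | ⟨f1, h1⟩
        · exfalso
          rcases h2 with h2 | ⟨f2, h2⟩
          · exact lexW_asymm h1 h2
          · rw [f2] at h1; exact lexW_irrefl _ h1
        · subst f1
          exact ⟨p'', rfl⟩
  · exact absurd h2 (par_asymm h1)
  · exact absurd h1 h2

/-- Above `j` an apex of two vertices agreeing above `j` agrees with them. -/
theorem lex_sandwich {D : ℕ} {w w' w'' : Wd D} {j : Fin D} (hag : ∀ i, j < i → w i = w' i)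
    (h1 : lexW w' w'' ∨ w' = w'') (h2 : lexW w'' w ∨ w'' = w) :
    lev (w' j) ≤ lev (w j) := by
  -- agreement above j
  have key : ∀ i, j < i → w i = w'' i := by
    intro i
    rcases h1 with ⟨i1, hM1, ha1⟩ | h1
    · rcases h2 with ⟨i2, hM2, ha2⟩ | h2
      · by_cases c1 : j < i1
        · exfalso
          rcases lt_trichotomy i1 i2 with h | h | h
          · -- i2 > i1 : w'' i2 = w' i2 = w i2
            have e1 := ha1 i2 h
            have e2 := hag i2 (lt_trans c1 h)
            rw [← e1, ← e2] at hM2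
            exact M_irrefl _ hM2
          · subst h
            rw [hag i1 c1] at hM2
            exact M_asymm hM1 hM2
          · have e1 := ha2 i1 h
            rw [e1, hag i1 c1] at hM1
            exact M_irrefl _ hM1
        · intro hji
          have : i1 < i := lt_of_le_of_lt (not_lt.mp c1) hji
          rw [hag i hji]; exact ha1 i this
      · intro hji
        rw [h2]
    · intro hji
      rw [hag i hji, h1]
  have k1 : lev (w' j) ≤ lev (w'' j) := by
    rcases h1 with ⟨i1, hM1, ha1⟩ | h1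
    · rcases lt_trichotomy i1 j with h | h | h
      · rw [ha1 j h]
      · subst h; exact M_lev hM1
      · rw [← hag i1 h, key i1 h] at hM1
        exact absurd hM1 (M_irrefl _)
    · rw [h1]
  have k2 : lev (w'' j) ≤ lev (w j) := by
    rcases h2 with ⟨i2, hM2, ha2⟩ | h2
    · rcases lt_trichotomy i2 j with h | h | h
      · rw [ha2 j h]
      · subst h; exact M_lev hM2
      · rw [key i2 h] at hM2
        exact absurd hM2 (M_irrefl _)
    · rw [h2]
  exact k1.trans k2

theorem apex_A {D t μ : ℕ} {x : VV D t μ} {a : Fin (2 * t)} {w w' : Wd D} {p p' : Fin μ}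
    {j : Fin D} (hag : ∀ i, j < i → w i = w' i) (hlev : lev (w j) < lev (w' j))
    (h1 : TT D t μ (Sum.inl (a, w', p')) x) (h2 : TT D t μ x (Sum.inl (a, w, p))) :
    ∃ z : ZV D μ, x = Sum.inr (Sum.inr z) ∧ z.1 ≤ j := by
  rcases x with ⟨a'', w'', p''⟩ | q | z
  · exfalso
    rcases h1 with h1 | ⟨e1, h1⟩
    · rcases h2 with h2 | ⟨e2, h2⟩
      · exact par_asymm h1 h2
      · simp only at h1 e2
        rw [e2] at h1; exact par_irrefl _ h1
    · simp only at e1 h1
      subst e1
      rcases h2 with h2 | ⟨e2, h2⟩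
      · exact absurd h2 (par_irrefl _)
      · simp only at h2
        have h1' : lexW w' w'' ∨ w' = w'' := h1.imp id (fun h => h.1)
        have h2' : lexW w'' w ∨ w'' = w := h2.imp id (fun h => h.1)
        exact absurd (lex_sandwich hag h1' h2') (not_le.mpr hlev)
  · exact absurd h2 (par_asymm h1)
  · refine ⟨z, rfl, ?_⟩
    by_contra hz
    have hz' : j < z.1 := not_le.mp hz
    apply h2
    have e := hag z.1 hz'
    have h1' : relZ t a w' z.1 z.2.1 := h1
    show relZ t a w z.1 z.2.1
    unfold relZ at h1' ⊢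
    rw [e]; exact h1'

theorem lev_lt_of_TT {D t μ : ℕ} {a : Fin (2 * t)} {w w' : Wd D} {p p' : Fin μ}
    {j : Fin D} (hag : ∀ i, j < i → w i = w' i) (hlev : lev (w j) ≠ lev (w' j))
    (h : TT D t μ (Sum.inl (a, w, p)) (Sum.inl (a, w', p'))) : lev (w j) < lev (w' j) := by
  rcases h with h | ⟨-, h⟩
  · exact absurd h (par_irrefl _)
  · simp only at h
    rcases h with ⟨i, hM, hi⟩ | ⟨h, -⟩
    · rcases lt_trichotomy i j with h1 | h1 | h1
      · exact absurd (by rw [hi j h1]) hlev
      · subst h1; exact lt_of_le_of_ne (M_lev hM) hlev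
      · rw [hag i h1] at hM; exact absurd hM (M_irrefl _)
    · exact absurd (by rw [h]) hlev

theorem apex_P {D t μ : ℕ} {x : VV D t μ} {q q' : PV D μ}
    (h1 : TT D t μ (Sum.inr (Sum.inl q')) x) (h2 : TT D t μ x (Sum.inr (Sum.inl q))) :
    ∃ y, x = Sum.inr y := by
  rcases x with x | y
  · exact absurd h2 (par_asymm h1)
  · exact ⟨y, rfl⟩

theorem apex_Z {D t μ : ℕ} {x : VV D t μ} {z z' : ZV D μ} (h : z.1 = z'.1)
    (hu : z.2.1 = z'.2.1)
    (h1 : TT D t μ (Sum.inr (Sum.inr z')) x) (h2 : TT D t μ x (Sum.inr (Sum.inr z))) :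
    ∃ y, x = Sum.inr y := by
  rcases x with x | y
  · exfalso
    obtain ⟨h0, u0, i0⟩ := z
    obtain ⟨h0', u0', i0'⟩ := z'
    simp only at h hu
    subst h; subst hu
    exact h1 h2
  · exact ⟨y, rfl⟩

end E4
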