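import Pool.Agent.Helper12.E4.Defs

/-! # Basic facts: parity relation, letters, cardinality -/

namespace E4

theorem par_irrefl (x : ℕ) : ¬ par x x := by unfold par; omega

theorem par_asymm {x y : ℕ} (h : par x y) : ¬ par y x := by unfold par at *; omega

theorem par_total {x y : ℕ} (h : x ≠ y) : par x y ∨ par y x := by unfold par; omega

theorem par_card (N x : ℕ) (hx : x < N) :
    ((Finset.range N).filter (fun y => par x y)).card = x / 2 + (N - x) / 2 := by
  classical
  have h1 : (Finset.range N).filter (fun y => par x y) =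
      ((Finset.range (x / 2)).image (fun i => x - 2 * (i + 1))) ∪
      ((Finset.range ((N - x) / 2)).image (fun i => x + 1 + 2 * i)) := by
    ext y
    simp only [Finset.mem_filter, Finset.mem_range, Finset.mem_union, Finset.mem_image, par]
    constructor
    · rintro ⟨hy, h | h⟩
      · right
        exact ⟨(y - x) / 2, by omega, by omega⟩
      · left
        exact ⟨(x - y) / 2 - 1, by omega, by omega⟩
    · rintro (⟨i, hi, rfl⟩ | ⟨i, hi, rfl⟩)
      · refine ⟨by omega, Or.inr ⟨by omega, ?_⟩⟩
        omega
      · refine ⟨by omega, Or.inl ⟨by omega, ?_⟩⟩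
        omega
  rw [h1, Finset.card_union_of_disjoint, Finset.card_image_of_injOn, Finset.card_image_of_injOn,
    Finset.card_range, Finset.card_range]
  · intro a ha b hb hab
    simp only [Finset.coe_range, Set.mem_Iio] at ha hb hab
    omega
  · intro a ha b hb hab
    simp only [Finset.coe_range, Set.mem_Iio] at ha hb hab
    omega
  · rw [Finset.disjoint_left]
    intro y hy hy'
    simp only [Finset.mem_image, Finset.mem_range] at hy hy'
    obtain ⟨i, hi, rfl⟩ := hy
    obtain ⟨j, hj, hj'⟩ := hy'
    omega

theorem par_out (N x : ℕ) (hx : x < N) :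
    N ≤ 2 * ((Finset.range N).filter (fun y => par x y)).card + 2 := by
  rw [par_card N x hx]; omega

theorem par_out_odd (N x : ℕ) (hx : x < N) (hN : N % 2 = 1) :
    N = 2 * ((Finset.range N).filter (fun y => par x y)).card + 1 := by
  rw [par_card N x hx]; omega

theorem M_irrefl : ∀ c, ¬ M c c := by
  intro c h
  rcases h with h | h
  · exact lt_irrefl _ h
  · exact par_irrefl _ h.2

theorem M_asymm {c c' : Fin 30} (h : M c c') : ¬ M c' c := by
  intro h'
  rcases h with h | h <;> rcases h' with h' | h'
  · omega
  · omega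
  · omega
  · exact par_asymm h.2 h'.2

theorem M_total {c c' : Fin 30} (h : c ≠ c') : M c c' ∨ M c' c := by
  have h2 : c.val ≠ c'.val := fun e => h (Fin.ext e)
  unfold M
  rcases lt_trichotomy (lev c) (lev c') with h1 | h1 | h1
  · left; left; exact h1
  · rcases par_total h2 with h3 | h3
    · left; right; exact ⟨h1, h3⟩
    · right; right; exact ⟨h1.symm, h3⟩
  · right; left; exact h1

theorem M_lev {c c' : Fin 30} (h : M c c') : lev c ≤ lev c' := by
  rcases h with h | h
  · exact h.le
  · exact h.1.le

theorem M_deg : ∀ c : Fin 30, (Finset.univ.filter (fun c' => M c c')).card + tau c = 28 := by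
  decide

theorem tau_le : ∀ c : Fin 30, tau c ≤ 27 := by decide

theorem tau_bal : ∀ u : Fin 27, (Finset.univ.filter (fun c : Fin 30 => u.val < tau c)).card +
    (Finset.univ.filter (fun c : Fin 30 => 26 - u.val < tau c)).card = 30 := by decide

theorem S30_zero : S30 0 = 0 := by simp [S30]

theorem S30_succ (D : ℕ) : S30 (D + 1) = S30 D + 30 ^ D := by
  simp [S30, Finset.sum_range_succ]

theorem S30_eq (D : ℕ) : 29 * S30 D + 1 = 30 ^ D := by
  induction D with
  | zero => simp [S30]
  | succ n ih => rw [S30_succ, pow_succ]; omega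

theorem S30_fin (D : ℕ) : ∑ h : Fin D, 30 ^ h.val = S30 D := by
  simp [S30, Finset.sum_range]

theorem card_ZV (D μ : ℕ) : Fintype.card (ZV D μ) = 27 * S30 D * μ := by
  simp only [Fintype.card_sigma, Fintype.card_prod, Fintype.card_fin]
  rw [← S30_fin, Finset.mul_sum, Finset.sum_mul]
  refine Finset.sum_congr rfl fun h _ => by ring

theorem card_VV (D t μ : ℕ) :
    Fintype.card (VV D t μ) = ((2 * t + 1) * 30 ^ D + 27 * S30 D) * μ := by
  rw [Fintype.card_sum, Fintype.card_sum, card_ZV]
  simp only [Fintype.card_prod, Fintype.card_fin, Fintype.card_fun, Wd, KV, PV]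
  ring

end E4
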