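import Mathlib

/-! # Hierarchical tournaments: definitions (MP_e4b2b0_co) -/

namespace E4

/-- A tournament on `V`: no loops, and exactly one of the two arcs between any two distinct
vertices. -/
structure IsTournament {V : Type} (T : V → V → Prop) : Prop where
  irrefl : ∀ v, ¬ T v v
  exactlyOne : ∀ u v, u ≠ v → (T u v ∧ ¬ T v u) ∨ (T v u ∧ ¬ T u v)

/-- The out-degree of a vertex. -/
noncomputable def outDeg {V : Type} (T : V → V → Prop) (v : V) : ℕ := Nat.card {w : V // T v w}

/-- `(f, I)` is a subdivision of the digraph `D` (on `U`) in the digraph `T` (on `V`):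
`f` sends the vertices of `D` injectively to branch vertices; for each arc `u v` of `D` the list
`I u v` is the list of interior vertices of a directed path of `T` from `f u` to `f v`; no interior
vertex is a branch vertex; and the interiors of the paths of two distinct arcs are disjoint. -/
structure IsSubdivision {U V : Type} (D : U → U → Prop) (T : V → V → Prop)
    (f : U → V) (I : U → U → List V) : Prop where
  inj : Function.Injective f
  chain : ∀ u v, D u v → List.IsChain T (f u :: (I u v ++ [f v]))
  nodup : ∀ u v, D u v → (f u :: (I u v ++ [f v])).Nodup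
  avoid : ∀ u v, D u v → ∀ x ∈ I u v, ∀ w, x ≠ f w
  disj : ∀ u v u' v', D u v → D u' v' → (u, v) ≠ (u', v') → List.Disjoint (I u v) (I u' v')

/-- The complete digraph on `Fin k`. -/
def completeDigraph (k : ℕ) : Fin k → Fin k → Prop := fun u v => u ≠ v

/-- `T` contains a subdivision of the complete digraph on `k` vertices. -/
def HasSubdivision {V : Type} (T : V → V → Prop) (k : ℕ) : Prop :=
  ∃ (f : Fin k → V) (I : Fin k → Fin k → List V), IsSubdivision (completeDigraph k) T f I

/-- Every finite (nonempty) tournament of minimum out-degree at least `m` contains a subdivision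
of the complete digraph on `k` vertices. -/
def Forces (m k : ℕ) : Prop :=
  ∀ (V : Type) [Fintype V] [Nonempty V] (T : V → V → Prop), IsTournament T →
    (∀ v, m ≤ outDeg T v) → HasSubdivision T k

/-- The parity relation on the natural numbers. -/
def par (x y : ℕ) : Prop := (x < y ∧ (y - x) % 2 = 1) ∨ (y < x ∧ (x - y) % 2 = 0)

instance : DecidableRel par := fun x y => by unfold par; infer_instance

/-- Level of a letter: `0,1,2 ↦ 0`, `c ↦ c-2` for `3 ≤ c ≤ 26`, `27,28,29 ↦ 25`. -/
def lev (c : Fin 30) : ℕ := if c.val < 3 then 0 else if c.val < 27 then c.val - 2 else 25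

/-- Number of the 27 units which a letter dominates. -/
def tau (c : Fin 30) : ℕ := if c.val < 3 then 0 else if c.val < 27 then c.val - 1 else 27

/-- The tournament on the letters. -/
def M (c c' : Fin 30) : Prop := lev c < lev c' ∨ (lev c = lev c' ∧ par c.val c'.val)

instance : DecidableRel M := fun x y => by unfold M; infer_instance

/-- Words of length `D` over the 30 letters. -/
abbrev Wd (D : ℕ) := Fin D → Fin 30

/-- The clusters: `2t` copies of words × final modules. -/
abbrev KV (D t μ : ℕ) := Fin (2 * t) × Wd D × Fin μ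

abbrev PV (D μ : ℕ) := Fin (30 ^ D * μ)

/-- The apex set: at height `h`, 27 units of size `30^h μ`. -/
abbrev ZV (D μ : ℕ) := Σ h : Fin D, Fin 27 × Fin (30 ^ h.val * μ)

abbrev VV (D t μ : ℕ) := KV D t μ ⊕ (PV D μ ⊕ ZV D μ)

/-- A numbering of the apex set. -/
noncomputable def nu {D μ : ℕ} (z : ZV D μ) : ℕ := (Fintype.equivFin (ZV D μ) z).val

/-- `w` precedes `w'`: at the highest index where they differ, the letters are related by `M`. -/
def lexW {D : ℕ} (w w' : Wd D) : Prop := ∃ i, M (w i) (w' i) ∧ ∀ i', i < i' → w i' = w' i'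

/-- The relation from the clusters (cluster `a`, word `w`) to the unit `(h, u)` of the apex set. -/
def relZ {D : ℕ} (t a : ℕ) (w : Wd D) (h : Fin D) (u : Fin 27) : Prop :=
  if a < t then u.val < tau (w h) else 26 - u.val < tau (w h)

/-- The tournament. -/
def TT (D t μ : ℕ) : VV D t μ → VV D t μ → Prop
  | .inl x, .inl y => par x.1 y.1 ∨ (x.1 = y.1 ∧ (lexW x.2.1 y.2.1 ∨ (x.2.1 = y.2.1 ∧ par x.2.2 y.2.2)))
  | .inl x, .inr (.inl _) => par x.1 (2 * t)
  | .inr (.inl _), .inl x => par (2 * t) x.1
  | .inl x, .inr (.inr z) => relZ t x.1 x.2.1 z.1 z.2.1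
  | .inr (.inr z), .inl x => ¬ relZ t x.1 x.2.1 z.1 z.2.1
  | .inr (.inl q), .inr (.inl q') => par q q'
  | .inr (.inl q), .inr (.inr z) => (q.val + nu z) % 2 = 0
  | .inr (.inr z), .inr (.inl q) => ¬ (q.val + nu z) % 2 = 0
  | .inr (.inr z), .inr (.inr z') => par (nu z) (nu z')

/-- `1 + 30 + ... + 30^(D-1)`. -/
def S30 (D : ℕ) : ℕ := ∑ h ∈ Finset.range D, 30 ^ h

end E4
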