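import Pool.Agent.Helper12.E4.NoSub
import Pool.Agent.Helper58.E4.Count3

/-! # Final assembly -/

namespace E4

open Filter Topology

theorem outDeg_TT (D t μ : ℕ) (hμ : μ % 2 = 1) (v : VV D t μ) :
    ((2 * t + 1) * 30 ^ D + 27 * S30 D) * μ ≤ 2 * outDeg (TT D t μ) v + 3 := by
  rcases v with x | q | z
  · have := outDeg_K D t μ hμ x
    omega
  · exact outDeg_P D t μ q
  · exact outDeg_Z D t μ z

theorem forces_lower {k m μ : ℕ} (hμ : 100 ≤ μ) (hodd : μ % 2 = 1)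
    (h2 : ((((2 * 10 ^ 10 + 1) * 30 ^ 60 + 27 * S30 60) * μ : ℕ) : ℝ) ≤
      (1 / 2 + 1 / (8000 * ((2 * 10 ^ 10 + 1) * 30 ^ 60 + 27 * ((30 ^ 60 - 1) / 29)))) * (k : ℝ) ^ 2)
    (hm : Forces m k) :
    ((2 * 10 ^ 10 + 1) * 30 ^ 60 + 27 * S30 60) * μ ≤ 2 * m + 1 := by
  by_contra hcon
  haveI : Nonempty (VV 60 (10 ^ 10) μ) :=
    ⟨Sum.inl (⟨0, by norm_num⟩, fun _ => 0, ⟨0, by omega⟩)⟩
  refine no_sub μ k hμ h2 (hm _ _ (TT_tournament 60 (10 ^ 10) μ) ?_)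
  intro v
  have h3 := outDeg_TT 60 (10 ^ 10) μ hodd v
  omega

theorem lower_bound : ∃ ε : ℝ, 0 < ε ∧ ∀ᶠ k : ℕ in atTop, ∀ m : ℕ, Forces m k →
    (1 / 4 + ε) * (k : ℝ) ^ 2 ≤ m := by
  obtain ⟨MM, hMM⟩ : ∃ MM : ℕ, MM = (2 * 10 ^ 10 + 1) * 30 ^ 60 + 27 * S30 60 := ⟨_, rfl⟩
  have hMMr : ((2 * 10 ^ 10 + 1) * 30 ^ 60 + 27 * ((30 ^ 60 - 1) / 29) : ℝ) = (MM : ℝ) := by
    rw [hMM]
    push_cast
    rw [S30_real]
    norm_num
  have hMpos : (0 : ℝ) < MM := by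
    rw [← hMMr]; norm_num
  set η : ℝ := 1 / (8000 * (MM : ℝ)) with hη
  have hηpos : 0 < η := by positivity
  refine ⟨η / 4, by positivity, ?_⟩
  have hbig : ∀ᶠ k : ℕ in atTop, (4 / η + 1) * (MM + 1) * 200 ≤ (k : ℝ) := by
    exact (tendsto_natCast_atTop_atTop).eventually_ge_atTop _
  filter_upwards [hbig] with k hk m hm
  have hk1 : (1 : ℝ) ≤ k := by
    refine le_trans ?_ hk
    have : (0 : ℝ) < 4 / η := by positivity
    nlinarith
  have hk2 : (4 / η + 1) * (MM + 1) * 200 ≤ (k : ℝ) ^ 2 := by nlinarith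
  have hk3 : (MM + 1 : ℝ) ≤ η / 4 * (k : ℝ) ^ 2 := by
    have h4 : (4 / η) * (MM + 1) ≤ (k : ℝ) ^ 2 := by
      refine le_trans ?_ hk2
      have h5 : (0 : ℝ) < 4 / η := by positivity
      nlinarith
    have h5 : η / 4 * ((4 / η) * (MM + 1)) = (MM + 1 : ℝ) := by
      field_simp
    calc (MM + 1 : ℝ) = η / 4 * ((4 / η) * (MM + 1)) := h5.symm
      _ ≤ η / 4 * (k : ℝ) ^ 2 := by
        apply mul_le_mul_of_nonneg_left h4 (by positivity)
  have hk4 : 200 * (MM : ℝ) ≤ (k : ℝ) ^ 2 := by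
    refine le_trans ?_ hk2
    have h5 : (0 : ℝ) < 4 / η := by positivity
    nlinarith [mul_pos h5 hMpos]
  set X : ℝ := (1 / 2 + η) * (k : ℝ) ^ 2 / MM with hX
  have hX1 : 100 ≤ X := by
    rw [hX, le_div_iff₀ hMpos]
    nlinarith
  set q : ℕ := ⌊X⌋₊ with hq
  have hq1 : (q : ℝ) ≤ X := Nat.floor_le (by linarith)
  have hq2 : X < q + 1 := Nat.lt_floor_add_one X
  have hq3 : 100 ≤ q := Nat.le_floor (by exact_mod_cast hX1)
  obtain ⟨μ, hμ⟩ : ∃ μ : ℕ, μ = 2 * ((q - 1) / 2) + 1 := ⟨_, rfl⟩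
  have hodd : μ % 2 = 1 := by omega
  have hle : μ ≤ q := by omega
  have hge : q ≤ μ + 1 := by omega
  rcases Nat.lt_or_ge μ 100 with hlt | hμ100
  · -- then q ≤ 100, μ = 99, impossible to exclude directly: enlarge
    exfalso
    have h6 : q ≤ 100 := by omega
    have h7 : X < 101 := by
      have : (q : ℝ) ≤ 100 := by exact_mod_cast h6
      linarith
    have h8 : 100 + η * 200 ≤ X := by
      rw [hX, le_div_iff₀ hMpos]
      nlinarith
    -- use a stronger bound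
    have h9 : 200 * (MM + 1) * (4 / η + 1) ≤ (k : ℝ) ^ 2 := by linarith
    have h10 : 101 ≤ X := by
      rw [hX, le_div_iff₀ hMpos]
      have h11 : (0 : ℝ) < 4 / η := by positivity
      have h12 : (4 : ℝ) ≤ 4 / η := by
        rw [le_div_iff₀ hηpos]
        have : η ≤ 1 := by
          rw [hη, div_le_one (by positivity)]
          have h13 : (1 : ℝ) ≤ MM := by
            have : 0 < MM := by exact_mod_cast hMpos
            exact_mod_cast this
          linarith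
        linarith
      nlinarith
    linarith
  · have h2 : (((MM) * μ : ℕ) : ℝ) ≤ (1 / 2 + η) * (k : ℝ) ^ 2 := by
      push_cast
      have h3 : (μ : ℝ) ≤ X := le_trans (by exact_mod_cast hle) hq1
      calc (MM : ℝ) * μ ≤ MM * X := by
            apply mul_le_mul_of_nonneg_left h3 hMpos.le
        _ = (1 / 2 + η) * (k : ℝ) ^ 2 := by
            rw [hX]; field_simp
    have h3 := forces_lower (k := k) (m := m) hμ100 hodd (by
      rw [← hMM, hMMr]; exact h2) hm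
    rw [← hMM] at h3
    have h4 : (MM : ℝ) * μ ≤ 2 * m + 1 := by exact_mod_cast h3
    have h5 : X ≤ μ + 2 := by
      have : (q : ℝ) ≤ μ + 1 := by exact_mod_cast hge
      linarith
    have h6 : (1 / 2 + η) * (k : ℝ) ^ 2 ≤ MM * (μ + 2) := by
      calc (1 / 2 + η) * (k : ℝ) ^ 2 = MM * X := by rw [hX]; field_simp
        _ ≤ MM * (μ + 2) := mul_le_mul_of_nonneg_left h5 hMpos.le
    nlinarith

theorem not_tendsto (d : ℕ → ℕ) (hd : ∀ k, 2 ≤ k → IsLeast {m | Forces m k} (d k)) :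
    ¬ Tendsto (fun k : ℕ => (d k : ℝ) / (k : ℝ) ^ 2) atTop (𝓝 (1 / 4)) := by
  intro h
  obtain ⟨ε, hε, hk⟩ := lower_bound
  have h1 : ∀ᶠ k : ℕ in atTop, 1 / 4 + ε ≤ (d k : ℝ) / (k : ℝ) ^ 2 := by
    filter_upwards [hk, eventually_ge_atTop 2] with k hk hk2
    have h2 := hk (d k) (hd k hk2).1
    have h3 : (0 : ℝ) < (k : ℝ) ^ 2 := by
      have : (0 : ℝ) < k := by exact_mod_cast (by omega : 0 < k)
      positivity
    rw [le_div_iff₀ h3]
    exact h2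
  have h2 := ge_of_tendsto h h1
  linarith

end E4
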