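import Pool.Agent.Helper12.E4.Apex

/-! # The inequalities satisfied by the branch set -/

namespace E4

open Finset

theorem pairs_eq_sum_sq {X Q : Type} [DecidableEq X] [DecidableEq Q] (B : Finset X) (g : X → Q) :
    ((B ×ˢ B).filter (fun p => g p.1 = g p.2)).card =
      ∑ q ∈ B.image g, (B.filter (fun x => g x = q)).card ^ 2 := by
  have h := Finset.card_eq_sum_card_fiberwise (s := (B ×ˢ B).filter (fun p => g p.1 = g p.2))
    (t := B.image g) (f := fun p => g p.1) (by
      intro p hp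
      rw [Finset.mem_coe, Finset.mem_filter, Finset.mem_product] at hp
      exact Finset.mem_coe.mpr (Finset.mem_image_of_mem g hp.1.1))
  rw [h]
  refine Finset.sum_congr rfl fun q _ => ?_
  rw [sq, ← Finset.card_product]
  congr 1
  ext p
  simp only [Finset.mem_filter, Finset.mem_product]
  constructor
  · rintro ⟨⟨⟨h1, h2⟩, h3⟩, h4⟩
    exact ⟨⟨h1, h4⟩, h2, by rw [← h3]; exact h4⟩
  · rintro ⟨⟨h1, h2⟩, h3, h4⟩
    exact ⟨⟨⟨h1, h3⟩, by rw [h2, h4]⟩, h2⟩

theorem card_eq_sum_fib {X Q : Type} [DecidableEq X] [DecidableEq Q] (B : Finset X) (g : X → Q) :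
    B.card = ∑ q ∈ B.image g, (B.filter (fun x => g x = q)).card :=
  Finset.card_eq_sum_card_fiberwise (fun _ hx => Finset.mem_coe.mpr (Finset.mem_image_of_mem g hx))

theorem embed_pairs {X V : Type} [DecidableEq X] [DecidableEq V] (e : X → V)
    (he : Function.Injective e) (S : Finset X) (B : Finset V) (hS : ∀ x ∈ S, e x ∈ B)
    (R' : X → X → Prop) (R : V → V → Prop) [DecidableRel R'] [DecidableRel R]
    (hR : ∀ x ∈ S, ∀ y ∈ S, R' x y → R (e x) (e y)) :
    ((S ×ˢ S).filter (fun p => p.1 ≠ p.2 ∧ R' p.1 p.2)).card ≤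
      ((B ×ˢ B).filter (fun p => p.1 ≠ p.2 ∧ R p.1 p.2)).card := by
  apply Finset.card_le_card_of_injOn (fun p => (e p.1, e p.2))
  · intro p hp
    simp only [Finset.coe_filter, Finset.mem_product, Set.mem_ofPred_eq] at hp ⊢
    exact ⟨⟨hS _ hp.1.1, hS _ hp.1.2⟩, fun h => hp.2.1 (he h), hR _ hp.1.1 _ hp.1.2 hp.2.2⟩
  · intro p _ q _ h
    simp only [Prod.mk.injEq] at h
    exact Prod.ext (he h.1) (he h.2)

theorem pairs_le_add {X : Type} [DecidableEq X] (S : Finset X) (R : X → X → Prop)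
    [DecidableRel R] :
    ((S ×ˢ S).filter (fun p => R p.1 p.2)).card ≤
      ((S ×ˢ S).filter (fun p => p.1 ≠ p.2 ∧ R p.1 p.2)).card + S.card := by
  have : (S ×ˢ S).filter (fun p => R p.1 p.2) ⊆
      (S ×ˢ S).filter (fun p => p.1 ≠ p.2 ∧ R p.1 p.2) ∪ S.image (fun x => (x, x)) := by
    intro p hp
    rw [Finset.mem_filter] at hp
    rw [Finset.mem_union, Finset.mem_filter, Finset.mem_image]
    by_cases h : p.1 = p.2
    · right
      exact ⟨p.1, (Finset.mem_product.mp hp.1).1, Prod.ext rfl h⟩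
    · left
      exact ⟨hp.1, h, hp.2⟩
  refine (Finset.card_le_card this).trans ((Finset.card_union_le _ _).trans ?_)
  exact Nat.add_le_add_left Finset.card_image_le _

variable {D t μ : ℕ}

/-- The copy of `C_j` containing `x`. -/
def gK (j : ℕ) (x : KV D t μ) : Fin (2 * t) × Wd D :=
  (x.1, fun i => if j ≤ i.val then x.2.1 i else 0)

theorem gK_iff (j : ℕ) (x y : KV D t μ) :
    gK j x = gK j y ↔ x.1 = y.1 ∧ ∀ i : Fin D, j ≤ i.val → x.2.1 i = y.2.1 i := by
  unfold gK
  rw [Prod.mk.injEq]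
  refine and_congr_right fun _ => ?_
  constructor
  · intro h i hi
    have := congrFun h i
    simpa [hi] using this
  · intro h
    funext i
    by_cases hi : j ≤ i.val
    · simp only [hi, if_true]; exact h i hi
    · simp only [hi, if_false]

theorem gK_step (j : Fin D) (x y : KV D t μ) :
    (gK (j.val + 1) x = gK (j.val + 1) y ∧ x.2.1 j = y.2.1 j) ↔ gK j.val x = gK j.val y := by
  rw [gK_iff, gK_iff]
  constructor
  · rintro ⟨⟨h1, h2⟩, h3⟩
    refine ⟨h1, fun i hi => ?_⟩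
    rcases Nat.lt_or_ge j.val i.val with h | h
    · exact h2 i h
    · have : i = j := Fin.ext (le_antisymm h hi)
      rw [this]; exact h3
  · rintro ⟨h1, h2⟩
    exact ⟨⟨h1, fun i hi => h2 i (by omega)⟩, h2 j le_rfl⟩

/-- Energy at scale `j`. -/
def EK (B : Finset (KV D t μ)) (j : ℕ) : ℕ :=
  ((B ×ˢ B).filter (fun p => gK j p.1 = gK j p.2)).card

/-- Ordered pairs splitting at height `j` with different levels. -/
def AK (B : Finset (KV D t μ)) (j : Fin D) : ℕ :=
  ((B ×ˢ B).filter (fun p => gK (j.val + 1) p.1 = gK (j.val + 1) p.2 ∧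
    lev (p.1.2.1 j) ≠ lev (p.2.2.1 j))).card

/-- The counting property of the branch set provided by `sub_count`. -/
def Good {V : Type} [Fintype V] [DecidableEq V] (T : V → V → Prop) (B : Finset V) (L : ℕ) : Prop :=
  ∀ (R : V → V → Prop) [DecidableRel R] (W : Finset V), (∀ u v, R u v → R v u) →
        (∀ u v x, R u v → T u v → T v x → T x u → x ∈ W) →
        ((B ×ˢ B).filter (fun p => p.1 ≠ p.2 ∧ R p.1 p.2)).card ≤ 2 * W.card + 2 * L

noncomputable instance : DecidableEq (VV D t μ) := Classical.decEq _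

/-- Branch vertices in the clusters. -/
noncomputable def BK (B : Finset (VV D t μ)) : Finset (KV D t μ) :=
  Finset.univ.filter (fun x => Sum.inl x ∈ B)

noncomputable def BP (B : Finset (VV D t μ)) : Finset (PV D μ) :=
  Finset.univ.filter (fun x => Sum.inr (Sum.inl x) ∈ B)

noncomputable def BZ (B : Finset (VV D t μ)) : Finset (ZV D μ) :=
  Finset.univ.filter (fun x => Sum.inr (Sum.inr x) ∈ B)

theorem mem_BK {B : Finset (VV D t μ)} {x : KV D t μ} : x ∈ BK B ↔ Sum.inl x ∈ B := by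
  simp [BK]

theorem mem_BP {B : Finset (VV D t μ)} {x : PV D μ} : x ∈ BP B ↔ Sum.inr (Sum.inl x) ∈ B := by
  simp [BP]

theorem mem_BZ {B : Finset (VV D t μ)} {x : ZV D μ} : x ∈ BZ B ↔ Sum.inr (Sum.inr x) ∈ B := by
  simp [BZ]

theorem card_B (B : Finset (VV D t μ)) :
    (BK B).card + (BP B).card + (BZ B).card = B.card := by
  classical
  have h : B = (BK B).image Sum.inl ∪ ((BP B).image (fun x => Sum.inr (Sum.inl x)) ∪
      (BZ B).image (fun x => Sum.inr (Sum.inr x))) := by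
    ext v
    simp only [Finset.mem_union, Finset.mem_image, mem_BK, mem_BP, mem_BZ]
    constructor
    · intro hv
      rcases v with x | q | z
      · left; exact ⟨x, hv, rfl⟩
      · right; left; exact ⟨q, hv, rfl⟩
      · right; right; exact ⟨z, hv, rfl⟩
    · rintro (⟨x, hx, rfl⟩ | ⟨x, hx, rfl⟩ | ⟨x, hx, rfl⟩) <;> exact hx
  conv_rhs => rw [h]
  rw [Finset.card_union_of_disjoint, Finset.card_union_of_disjoint,
    Finset.card_image_of_injective _ Sum.inl_injective,
    Finset.card_image_of_injective (f := fun x => (Sum.inr (Sum.inl x) : VV D t μ)) _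
      (Sum.inr_injective.comp Sum.inl_injective),
    Finset.card_image_of_injective (f := fun x => (Sum.inr (Sum.inr x) : VV D t μ)) _
      (Sum.inr_injective.comp Sum.inr_injective)]
  · ring
  · rw [Finset.disjoint_left]
    intro v hv hv'
    simp only [Finset.mem_image] at hv hv'
    obtain ⟨x, -, rfl⟩ := hv
    obtain ⟨y, -, hy⟩ := hv'
    simp at hy
  · rw [Finset.disjoint_left]
    intro v hv hv'
    simp only [Finset.mem_union, Finset.mem_image] at hv hv'
    obtain ⟨x, -, rfl⟩ := hv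
    rcases hv' with ⟨y, -, hy⟩ | ⟨y, -, hy⟩ <;> simp at hy

/-- (F) in a final module. -/
theorem ineq_F {B : Finset (VV D t μ)} {L : ℕ} (hB : Good (TT D t μ) B L)
    (q : Fin (2 * t) × Wd D) :
    ((BK B).filter (fun x => gK 0 x = q)).card * ((BK B).filter (fun x => gK 0 x = q)).card ≤
      ((BK B).filter (fun x => gK 0 x = q)).card + (2 * μ + 2 * L) := by
  classical
  set S := (BK B).filter (fun x => gK 0 x = q) with hS
  have h1 := embed_pairs (X := KV D t μ) (V := VV D t μ) Sum.inl Sum.inl_injective S B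
    (fun x hx => mem_BK.mp (Finset.mem_filter.mp hx).1) (fun _ _ => True)
    (fun u v => ∃ x y : KV D t μ, u = Sum.inl x ∧ v = Sum.inl y ∧ gK 0 x = q ∧ gK 0 y = q)
    (fun x hx y hy _ => ⟨x, y, rfl, rfl, (Finset.mem_filter.mp hx).2, (Finset.mem_filter.mp hy).2⟩)
  have h2 := hB (fun u v => ∃ x y : KV D t μ, u = Sum.inl x ∧ v = Sum.inl y ∧ gK 0 x = q ∧
    gK 0 y = q) ((Finset.univ : Finset (Fin μ)).image (fun p => Sum.inl (q.1, q.2, p)))
    (by rintro u v ⟨x, y, h1, h2, h3, h4⟩; exact ⟨y, x, h2, h1, h4, h3⟩)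
    (by
      rintro u v x ⟨y, z, rfl, rfl, h3, h4⟩ _ hvx hxu
      obtain ⟨a, w, p⟩ := y
      obtain ⟨a', w', p'⟩ := z
      have e1 : q = (a, w) := by
        rw [← h3]; unfold gK; simp
      have e2 : q = (a', w') := by
        rw [← h4]; unfold gK; simp
      have e3 : (a, w) = (a', w') := e1.symm.trans e2
      simp only [Prod.mk.injEq] at e3
      obtain ⟨e3, e4⟩ := e3
      subst e3; subst e4
      obtain ⟨p'', hp⟩ := apex_F hvx hxu
      rw [Finset.mem_image]
      exact ⟨p'', Finset.mem_univ _, by rw [hp, e1]⟩)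
  have h3 : ((Finset.univ : Finset (Fin μ)).image
      (fun p => (Sum.inl (q.1, q.2, p) : VV D t μ))).card ≤ μ := by
    refine Finset.card_image_le.trans ?_
    simp
  have h4 := pairs_le_add S (fun _ _ => True)
  have h5 : ((S ×ˢ S).filter (fun p => True)).card = S.card * S.card := by
    rw [Finset.filter_true, Finset.card_product]
  omega

/-- (A) pairs splitting at height `j` with different levels. -/
theorem ineq_A {B : Finset (VV D t μ)} {L : ℕ} (hB : Good (TT D t μ) B L) (j : Fin D) :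
    AK (BK B) j ≤ 2 * (27 * S30 (j.val + 1) * μ) + 2 * L := by
  classical
  have h1 := embed_pairs (X := KV D t μ) (V := VV D t μ) Sum.inl Sum.inl_injective (BK B) B
    (fun x hx => mem_BK.mp hx)
    (fun x y => gK (j.val + 1) x = gK (j.val + 1) y ∧ lev (x.2.1 j) ≠ lev (y.2.1 j))
    (fun u v => ∃ x y : KV D t μ, u = Sum.inl x ∧ v = Sum.inl y ∧
      gK (j.val + 1) x = gK (j.val + 1) y ∧ lev (x.2.1 j) ≠ lev (y.2.1 j))
    (fun x hx y hy h => ⟨x, y, rfl, rfl, h⟩)
  have h2 := hB (fun u v => ∃ x y : KV D t μ, u = Sum.inl x ∧ v = Sum.inl y ∧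
      gK (j.val + 1) x = gK (j.val + 1) y ∧ lev (x.2.1 j) ≠ lev (y.2.1 j))
    ((Finset.univ.filter (fun z : ZV D μ => z.1 ≤ j)).image (fun z => Sum.inr (Sum.inr z)))
    (by rintro u v ⟨x, y, h1, h2, h3, h4⟩; exact ⟨y, x, h2, h1, h3.symm, h4.symm⟩)
    (by
      rintro u v x ⟨y, z, rfl, rfl, h3, h4⟩ huv hvx hxu
      obtain ⟨a, w, p⟩ := y
      obtain ⟨a', w', p'⟩ := z
      rw [gK_iff] at h3
      obtain ⟨e3, h3⟩ := h3
      simp only at e3 h3 h4
      subst e3
      have hag : ∀ i, j < i → w i = w' i := fun i hi => h3 i hi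
      have hlt := lev_lt_of_TT hag h4 huv
      obtain ⟨z, hz, hz'⟩ := apex_A hag hlt hvx hxu
      rw [Finset.mem_image]
      exact ⟨z, Finset.mem_filter.mpr ⟨Finset.mem_univ _, hz'⟩, hz.symm⟩)
  have h3 : ((Finset.univ.filter (fun z : ZV D μ => z.1 ≤ j)).image
      (fun z => (Sum.inr (Sum.inr z) : VV D t μ))).card ≤ 27 * S30 (j.val + 1) * μ := by
    refine Finset.card_image_le.trans ?_
    -- map z ↦ ZV (j+1)
    have : (Finset.univ.filter (fun z : ZV D μ => z.1 ≤ j)).card ≤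
        Fintype.card (ZV (j.val + 1) μ) := by
      rw [← Finset.card_univ]
      refine Finset.card_le_card_of_surjOn
        (fun z : ZV (j.val + 1) μ => (⟨⟨z.1.val, lt_of_lt_of_le z.1.isLt j.isLt⟩, z.2⟩ : ZV D μ)) ?_
      intro z hz
      rw [Finset.mem_coe, Finset.mem_filter] at hz
      obtain ⟨⟨h, hh⟩, u⟩ := z
      have hz' : h ≤ j.val := hz.2
      exact ⟨⟨⟨h, Nat.lt_succ_of_le hz'⟩, u⟩, Finset.mem_coe.mpr (Finset.mem_univ _), rfl⟩
    rw [card_ZV] at this
    exact this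
  have h4 : AK (BK B) j ≤ ((BK B ×ˢ BK B).filter (fun p => p.1 ≠ p.2 ∧
      (gK (j.val + 1) p.1 = gK (j.val + 1) p.2 ∧ lev (p.1.2.1 j) ≠ lev (p.2.2.1 j)))).card := by
    unfold AK
    apply Finset.card_le_card
    intro p hp
    rw [Finset.mem_filter] at hp ⊢
    refine ⟨hp.1, ?_, hp.2⟩
    intro h
    rw [h] at hp
    exact hp.2.2 rfl
  omega

/-- (P) -/
theorem ineq_P {B : Finset (VV D t μ)} {L : ℕ} (hB : Good (TT D t μ) B L) :
    (BP B).card * (BP B).card ≤ (BP B).card + (2 * ((30 ^ D + 27 * S30 D) * μ) + 2 * L) := by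
  classical
  have h1 := embed_pairs (X := PV D μ) (V := VV D t μ) (fun q => Sum.inr (Sum.inl q))
    (Sum.inr_injective.comp Sum.inl_injective) (BP B) B
    (fun x hx => mem_BP.mp hx) (fun _ _ => True)
    (fun u v => ∃ x y : PV D μ, u = Sum.inr (Sum.inl x) ∧ v = Sum.inr (Sum.inl y))
    (fun x hx y hy _ => ⟨x, y, rfl, rfl⟩)
  have h2 := hB (fun u v => ∃ x y : PV D μ, u = Sum.inr (Sum.inl x) ∧ v = Sum.inr (Sum.inl y))
    ((Finset.univ : Finset (PV D μ ⊕ ZV D μ)).image Sum.inr)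
    (by rintro u v ⟨x, y, h1, h2⟩; exact ⟨y, x, h2, h1⟩)
    (by
      rintro u v x ⟨y, z, rfl, rfl⟩ _ hvx hxu
      obtain ⟨y', hy'⟩ := apex_P hvx hxu
      rw [Finset.mem_image]
      exact ⟨y', Finset.mem_univ _, hy'.symm⟩)
  have h3 : ((Finset.univ : Finset (PV D μ ⊕ ZV D μ)).image
      (Sum.inr : _ → VV D t μ)).card ≤ (30 ^ D + 27 * S30 D) * μ := by
    refine Finset.card_image_le.trans ?_
    rw [Finset.card_univ, Fintype.card_sum, card_ZV, Fintype.card_fin]
    apply le_of_eq; ring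
  have h4 := pairs_le_add (BP B) (fun _ _ => True)
  have h5 : ((BP B ×ˢ BP B).filter (fun p => True)).card = (BP B).card * (BP B).card := by
    rw [Finset.filter_true, Finset.card_product]
  omega

/-- The class of an apex vertex. -/
def clZ (z : ZV D μ) : Fin D × Fin 27 := (z.1, z.2.1)

/-- (Z) -/
theorem ineq_Z {B : Finset (VV D t μ)} {L : ℕ} (hB : Good (TT D t μ) B L) :
    (BZ B).card * (BZ B).card ≤
      27 * D * ((BZ B).card + (2 * ((30 ^ D + 27 * S30 D) * μ) + 2 * L)) := by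
  classical
  have h1 := embed_pairs (X := ZV D μ) (V := VV D t μ) (fun q => Sum.inr (Sum.inr q))
    (Sum.inr_injective.comp Sum.inr_injective) (BZ B) B
    (fun x hx => mem_BZ.mp hx) (fun x y => clZ x = clZ y)
    (fun u v => ∃ x y : ZV D μ, u = Sum.inr (Sum.inr x) ∧ v = Sum.inr (Sum.inr y) ∧ clZ x = clZ y)
    (fun x hx y hy h => ⟨x, y, rfl, rfl, h⟩)
  have h2 := hB (fun u v => ∃ x y : ZV D μ, u = Sum.inr (Sum.inr x) ∧ v = Sum.inr (Sum.inr y) ∧
      clZ x = clZ y)
    ((Finset.univ : Finset (PV D μ ⊕ ZV D μ)).image Sum.inr)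
    (by rintro u v ⟨x, y, h1, h2, h3⟩; exact ⟨y, x, h2, h1, h3.symm⟩)
    (by
      rintro u v x ⟨y, z, rfl, rfl, h3⟩ _ hvx hxu
      unfold clZ at h3
      rw [Prod.mk.injEq] at h3
      obtain ⟨y', hy'⟩ := apex_Z h3.1 h3.2 hvx hxu
      rw [Finset.mem_image]
      exact ⟨y', Finset.mem_univ _, hy'.symm⟩)
  have h3 : ((Finset.univ : Finset (PV D μ ⊕ ZV D μ)).image
      (Sum.inr : _ → VV D t μ)).card ≤ (30 ^ D + 27 * S30 D) * μ := by
    refine Finset.card_image_le.trans ?_
    rw [Finset.card_univ, Fintype.card_sum, card_ZV, Fintype.card_fin]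
    apply le_of_eq; ring
  have h4 := pairs_le_add (BZ B) (fun x y => clZ x = clZ y)
  have h5 := pairs_eq_sum_sq (BZ B) clZ
  have h6 := card_eq_sum_fib (BZ B) clZ
  have h7 : (∑ q ∈ (BZ B).image clZ, ((BZ B).filter (fun x => clZ x = q)).card) ^ 2 ≤
      ((BZ B).image clZ).card * ∑ q ∈ (BZ B).image clZ,
        ((BZ B).filter (fun x => clZ x = q)).card ^ 2 := sq_sum_le_card_mul_sum_sq
  have h8 : ((BZ B).image clZ).card ≤ 27 * D := by
    refine (Finset.card_le_univ _).trans ?_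
    rw [Fintype.card_prod, Fintype.card_fin, Fintype.card_fin]
    apply le_of_eq; ring
  rw [← h6, ← h5] at h7
  calc (BZ B).card * (BZ B).card = (BZ B).card ^ 2 := by ring
    _ ≤ _ := h7
    _ ≤ _ := Nat.mul_le_mul h8 (by omega)

/-- Energy at the top. -/
theorem ineq_K (B : Finset (KV D t μ)) : B.card * B.card ≤ 2 * t * EK B D := by
  classical
  have h5 := pairs_eq_sum_sq B (gK D)
  have h6 := card_eq_sum_fib B (gK D)
  have h7 : (∑ q ∈ B.image (gK D), (B.filter (fun x => gK D x = q)).card) ^ 2 ≤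
      (B.image (gK D)).card * ∑ q ∈ B.image (gK D),
        (B.filter (fun x => gK D x = q)).card ^ 2 := sq_sum_le_card_mul_sum_sq
  have h8 : (B.image (gK D)).card ≤ 2 * t := by
    have : B.image (gK D) ⊆
        (Finset.univ : Finset (Fin (2 * t))).image (fun a => (a, fun _ => (0 : Fin 30))) := by
      intro q hq
      rw [Finset.mem_image] at hq ⊢
      obtain ⟨x, -, rfl⟩ := hq
      refine ⟨x.1, Finset.mem_univ _, ?_⟩
      unfold gK
      rw [Prod.mk.injEq]
      refine ⟨rfl, ?_⟩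
      funext i
      have : ¬ D ≤ i.val := not_le.mpr i.isLt
      simp [this]
    refine (Finset.card_le_card this).trans (Finset.card_image_le.trans ?_)
    simp
  rw [← h6, ← h5] at h7
  calc B.card * B.card = B.card ^ 2 := by ring
    _ ≤ _ := h7
    _ ≤ _ := Nat.mul_le_mul h8 le_rfl

/-- Energy at the bottom. -/
theorem ineq_E0 (B : Finset (KV D t μ)) (β : ℝ)
    (h : ∀ q : Fin (2 * t) × Wd D, ((B.filter (fun x => gK 0 x = q)).card : ℝ) ≤ β) :
    (EK B 0 : ℝ) ≤ β * B.card := by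
  classical
  have h5 := pairs_eq_sum_sq B (gK 0)
  have h6 := card_eq_sum_fib B (gK 0)
  unfold EK
  rw [h5, h6]
  push_cast
  rw [Finset.mul_sum]
  apply Finset.sum_le_sum
  intro q _
  rw [sq]
  exact mul_le_mul_of_nonneg_right (h q) (Nat.cast_nonneg _)

end E4
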