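import Pool.Agent.Helper12.E4.Ineq
import Pool.Agent.Helper81.E4.Energy
import Pool.Agent.Helper81.E4.Subdiv
import Pool.Agent.Helper96.E4.Numeric

/-! # No subdivision -/

namespace E4

theorem energy_K {D t μ : ℕ} (B : Finset (KV D t μ)) (j : Fin D) :
    (15 / 56 : ℝ) * EK B (j.val + 1) ≤ EK B j.val + (1 / 4 : ℝ) * AK B j := by
  classical
  have h := energy_step B (gK (j.val + 1)) (fun x => x.2.1 j)
  have h1 : ((B ×ˢ B).filter (fun p => gK (j.val + 1) p.1 = gK (j.val + 1) p.2 ∧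
      p.1.2.1 j = p.2.2.1 j)).card = EK B j.val := by
    unfold EK
    congr 1
    ext p
    simp only [Finset.mem_filter, gK_step]
  rw [h1] at h
  exact h

/-- `S30` as a real number. -/
theorem S30_real (D : ℕ) : (S30 D : ℝ) = (30 ^ D - 1) / 29 := by
  have h := S30_eq D
  have h2 : (29 : ℝ) * (S30 D : ℝ) + 1 = 30 ^ D := by exact_mod_cast h
  linarith

/-- All the inequalities, for general parameters, as real inequalities. -/
theorem facts {D t μ k : ℕ} (h : HasSubdivision (TT D t μ) k) :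
    ∃ (bK bP bZ L : ℕ) (E A : ℕ → ℕ),
      bK + bP + bZ = k ∧
      k * k + k + 2 * L ≤ 2 * (((2 * t + 1) * 30 ^ D + 27 * S30 D) * μ) ∧
      bP * bP ≤ bP + (2 * ((30 ^ D + 27 * S30 D) * μ) + 2 * L) ∧
      bZ * bZ ≤ 27 * D * (bZ + (2 * ((30 ^ D + 27 * S30 D) * μ) + 2 * L)) ∧
      (∀ j < D, (15 / 56 : ℝ) * (E (j + 1) : ℝ) ≤ (E j : ℝ) + (1 / 4 : ℝ) * (A j : ℝ)) ∧
      (∀ j < D, A j ≤ 2 * (27 * S30 (j + 1) * μ) + 2 * L) ∧
      bK * bK ≤ 2 * t * E D ∧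
      (∀ β : ℝ, (∀ x : ℕ, x * x ≤ x + (2 * μ + 2 * L) → (x : ℝ) ≤ β) → (E 0 : ℝ) ≤ β * bK) := by
  classical
  obtain ⟨B, L, hk, hcard, hB⟩ := sub_count (TT D t μ) (TT_tournament D t μ) k h
  have hgood : Good (TT D t μ) B L := by
    intro R _ W h1 h2
    convert hB R W h1 h2
  refine ⟨(BK B).card, (BP B).card, (BZ B).card, L, EK (BK B),
    fun j => if hj : j < D then AK (BK B) ⟨j, hj⟩ else 0, ?_, ?_, ineq_P hgood, ineq_Z hgood,
    ?_, ?_, ineq_K _, ?_⟩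
  · rw [card_B, hk]
  · rw [card_VV] at hcard; exact hcard
  · intro j hj
    simp only [hj, dif_pos]
    exact energy_K (BK B) ⟨j, hj⟩
  · intro j hj
    simp only [hj, dif_pos]
    exact ineq_A hgood ⟨j, hj⟩
  · intro β hβ
    apply ineq_E0
    intro q
    exact hβ _ (ineq_F hgood q)

theorem no_sub (μ k : ℕ) (hμ : 100 ≤ μ)
    (h2 : ((((2 * 10 ^ 10 + 1) * 30 ^ 60 + 27 * S30 60) * μ : ℕ) : ℝ) ≤
      (1 / 2 + 1 / (8000 * ((2 * 10 ^ 10 + 1) * 30 ^ 60 + 27 * ((30 ^ 60 - 1) / 29)))) * (k : ℝ) ^ 2) :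
    ¬ HasSubdivision (TT 60 (10 ^ 10) μ) k := by
  intro h
  obtain ⟨bK, bP, bZ, L, E, A, hsum, h1, hP, hZ, hE, hA, hK, hE0⟩ := facts h
  have hS : ((S30 60 : ℕ) : ℝ) = (30 ^ 60 - 1) / 29 := S30_real 60
  have hN : ((((2 * 10 ^ 10 + 1) * 30 ^ 60 + 27 * S30 60) * μ : ℕ) : ℝ) =
      ((2 * 10 ^ 10 + 1) * 30 ^ 60 + 27 * ((30 ^ 60 - 1) / 29)) * μ := by
    push_cast
    rw [hS]
    norm_num
  refine numeric (μ : ℝ) k L bK bP bZ _ (fun j => (E j : ℝ)) (fun j => (A j : ℝ))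
    (by exact_mod_cast hμ) (Nat.cast_nonneg _) (Nat.cast_nonneg _) (Nat.cast_nonneg _)
    (Nat.cast_nonneg _) (Nat.cast_nonneg _) (by exact_mod_cast hsum) hN ?_ h2 ?_ ?_ hE ?_ ?_ ?_
  · have := (Nat.cast_le (α := ℝ)).mpr h1
    push_cast at this ⊢
    nlinarith [this]
  · have := (Nat.cast_le (α := ℝ)).mpr hP
    push_cast at this
    rw [hS] at this
    nlinarith [this]
  · have := (Nat.cast_le (α := ℝ)).mpr hZ
    push_cast at this
    rw [hS] at this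
    nlinarith [this]
  · intro j hj
    have := (Nat.cast_le (α := ℝ)).mpr (hA j hj)
    push_cast at this
    rw [S30_real] at this
    linarith [this]
  · have := (Nat.cast_le (α := ℝ)).mpr hK
    push_cast at this
    nlinarith [this]
  · intro β hβ hx
    apply hE0
    intro x hx'
    apply hx _ (Nat.cast_nonneg _)
    have := (Nat.cast_le (α := ℝ)).mpr hx'
    push_cast at this
    nlinarith [this]

end E4
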