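import Pool.Agent.Helper12.E4.Basic

/-! # The relation `TT` is a tournament -/

namespace E4

theorem lexW_irrefl {D : ℕ} (w : Wd D) : ¬ lexW w w := by
  rintro ⟨i, hi, -⟩
  exact M_irrefl _ hi

theorem lexW_asymm {D : ℕ} {w w' : Wd D} (h : lexW w w') : ¬ lexW w' w := by
  rintro ⟨j, hj, hj'⟩
  obtain ⟨i, hi, hi'⟩ := h
  rcases lt_trichotomy i j with h1 | h1 | h1
  · rw [hi' j h1] at hj; exact M_irrefl _ hj
  · subst h1; exact M_asymm hi hj
  · rw [hj' i h1] at hi; exact M_irrefl _ hi

theorem lexW_total {D : ℕ} {w w' : Wd D} (h : w ≠ w') : lexW w w' ∨ lexW w' w := by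
  classical
  have hne : (Finset.univ.filter (fun i => w i ≠ w' i)).Nonempty := by
    by_contra hcon
    rw [Finset.not_nonempty_iff_eq_empty, Finset.filter_eq_empty_iff] at hcon
    apply h
    funext i
    by_contra hi
    exact hcon (Finset.mem_univ i) hi
  obtain ⟨i, hi, hmax⟩ := Finset.exists_maximal hne
  rw [Finset.mem_filter] at hi
  have hagree : ∀ i', i < i' → w i' = w' i' := by
    intro i' hi'
    by_contra hcon
    have := hmax (Finset.mem_filter.mpr ⟨Finset.mem_univ i', hcon⟩) hi'.le
    exact absurd (lt_of_lt_of_le hi' this) (lt_irrefl _)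
  rcases M_total hi.2 with h1 | h1
  · left; exact ⟨i, h1, hagree⟩
  · right; exact ⟨i, h1, fun i' hi' => (hagree i' hi').symm⟩

theorem TT_irrefl (D t μ : ℕ) (v : VV D t μ) : ¬ TT D t μ v v := by
  rcases v with x | q | z
  · rintro (h | ⟨-, h | ⟨-, h⟩⟩)
    · exact par_irrefl _ h
    · exact lexW_irrefl _ h
    · exact par_irrefl _ h
  · exact par_irrefl _
  · exact par_irrefl _

theorem nu_inj {D μ : ℕ} {z z' : ZV D μ} (h : nu z = nu z') : z = z' := by
  unfold nu at h
  exact (Fintype.equivFin (ZV D μ)).injective (Fin.ext h)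

theorem TT_asymm (D t μ : ℕ) (u v : VV D t μ) (h : TT D t μ u v) : ¬ TT D t μ v u := by
  rcases u with x | q | z <;> rcases v with y | q' | z'
  · intro h'
    rcases h with h | ⟨e, h⟩ <;> rcases h' with h' | ⟨e', h'⟩
    · exact par_asymm h h'
    · rw [e'] at h; exact par_irrefl _ h
    · rw [e] at h'; exact par_irrefl _ h'
    · rcases h with h | ⟨f, h⟩ <;> rcases h' with h' | ⟨f', h'⟩
      · exact lexW_asymm h h'
      · rw [f'] at h; exact lexW_irrefl _ h
      · rw [f] at h'; exact lexW_irrefl _ h'
      · exact par_asymm h h'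
  · exact par_asymm h
  · exact fun h' => h' h
  · exact par_asymm h
  · exact par_asymm h
  · exact fun h' => h' h
  · exact fun h' => h h'
  · exact fun h' => h h'
  · exact par_asymm h

theorem TT_total (D t μ : ℕ) (u v : VV D t μ) (h : u ≠ v) : TT D t μ u v ∨ TT D t μ v u := by
  rcases u with x | q | z <;> rcases v with y | q' | z'
  · obtain ⟨a, w, p⟩ := x
    obtain ⟨a', w', p'⟩ := y
    by_cases ha : a = a'
    · subst ha
      by_cases hw : w = w'
      · subst hw
        have hp : p.val ≠ p'.val := by
          intro e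
          apply h
          rw [Fin.ext e]
        rcases par_total hp with h1 | h1
        · left; right; exact ⟨rfl, Or.inr ⟨rfl, h1⟩⟩
        · right; right; exact ⟨rfl, Or.inr ⟨rfl, h1⟩⟩
      · rcases lexW_total hw with h1 | h1
        · left; right; exact ⟨rfl, Or.inl h1⟩
        · right; right; exact ⟨rfl, Or.inl h1⟩
    · have ha' : a.val ≠ a'.val := fun e => ha (Fin.ext e)
      rcases par_total ha' with h1 | h1
      · left; left; exact h1
      · right; left; exact h1
  · exact par_total (by have := x.1.isLt; omega)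
  · exact em _
  · exact par_total (by have := y.1.isLt; omega)
  · have hq : q.val ≠ q'.val := by
      intro e
      apply h
      rw [Fin.ext e]
    exact par_total hq
  · exact em _
  · exact (em _).symm
  · exact (em _).symm
  · have hz : nu z ≠ nu z' := by
      intro e
      apply h
      rw [nu_inj e]
    exact par_total hz

theorem TT_tournament (D t μ : ℕ) : IsTournament (TT D t μ) where
  irrefl := TT_irrefl D t μ
  exactlyOne := by
    intro u v h
    rcases TT_total D t μ u v h with h1 | h1
    · exact Or.inl ⟨h1, TT_asymm D t μ u v h1⟩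
    · exact Or.inr ⟨h1, TT_asymm D t μ v u h1⟩

end E4
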